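import Pool.Agent.Helper71.DO.W10a

set_option autoImplicit false

namespace Pool.Agent.Helper67.DO

open scoped BigOperators Real

noncomputable section

theorem Loss.w10_all {N : ℕ} {m : ℕ} {Φ : Fin m → ℝ → ℝ → ℝ → ℝ → Prop} (h : ∀ k, Loss N (Φ k)) :
    Loss N fun w' h' w h => ∀ k, Φ k w' h' w h := by
  induction m with
  | zero => exact Loss.of fun _ _ _ _ _ _ _ _ _ k => k.elim0
  | succ m ih =>
    refine ((h 0).and (ih (Φ := fun k => Φ k.succ) (fun k => h k.succ))).imp ?_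
    intro w' h' w h0 _ _ _ _ _ H k
    refine Fin.cases H.1 (fun i => H.2 i) k

/-- a bound on the final height -/
theorem Loss.w10_h {N : ℕ} {c : ℝ} (hc : 0 < c) : Loss N fun _ h' _ _ => h' < c :=
  fun _ _ _ _ _ => ⟨c, hc, fun _ _ _ _ h3 => h3⟩

theorem w10_notmem {N : ℕ} {k l : Fin N} (h : l ≠ k) : ((l : ℕ) : ℤ) ∉ pcl N {((k : ℕ) : ℤ)} := by
  rintro ⟨t, ht⟩
  have h1 : ((l : ℕ) : ℤ) - t * N = ((k : ℕ) : ℤ) := ht
  have h2 := l.2
  have h3 := k.2
  have ht0 : t = 0 := by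
    rcases lt_trichotomy t 0 with h | h | h
    · have : t ≤ -1 := by omega
      have : t * N ≤ -1 * N := mul_le_mul_of_nonneg_right this (by positivity)
      omega
    · exact h
    · have : 1 ≤ t := by omega
      have : 1 * (N : ℤ) ≤ t * N := mul_le_mul_of_nonneg_right this (by positivity)
      omega
  rw [ht0] at h1
  apply h
  apply Fin.ext
  omega

variable {N : ℕ} {r σ : ℝ}

theorem w10_far {N : ℕ} (hN : 0 < N) {r w' x : ℝ} (hw : w' < r) (hr : r < 1 / (4 * N)) {l : ℤ}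
    (h : |x - l / N| ≤ r) {m : ℤ} (hm : m ≠ l) : w' < |x - m / N| := by
  have hN' : (0 : ℝ) < N := Nat.cast_pos.2 hN
  have h1 : (1 : ℝ) / N ≤ |(l : ℝ) / N - m / N| := by
    rw [← sub_div, abs_div, abs_of_pos hN']
    apply div_le_div_of_nonneg_right _ hN'.le
    have : (1 : ℤ) ≤ |l - m| := Int.one_le_abs (sub_ne_zero.2 (Ne.symm hm))
    exact_mod_cast this
  have h2 : |(l : ℝ) / N - m / N| ≤ |x - l / N| + |x - m / N| := by
    have : (l : ℝ) / N - m / N = (x - m / N) - (x - l / N) := by ring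
    rw [this]
    have := abs_sub (x - (m : ℝ) / N) (x - (l : ℝ) / N)
    linarith
  have h3 : (1 : ℝ) / N = 4 * (1 / (4 * N)) := by field_simp
  have h4 : (0 : ℝ) < 1 / (4 * N) := by positivity
  linarith

theorem w10_near {N : ℕ} (hN : 0 < N) {r w' x : ℝ} (hw : w' < r) {l : ℤ}
    (h1 : (l : ℝ) / N + r ≤ x) (h2 : x ≤ ((l : ℝ) + 1) / N - r) (m : ℤ) : w' < |x - m / N| := by
  have hN' : (0 : ℝ) < N := Nat.cast_pos.2 hN
  rcases le_or_gt m l with h | h
  · have h3 : (m : ℝ) / N ≤ l / N := div_le_div_of_nonneg_right (by exact_mod_cast h) hN'.le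
    rw [lt_abs]
    left
    linarith
  · have h3 : ((l : ℝ) + 1) / N ≤ m / N := div_le_div_of_nonneg_right (by exact_mod_cast h) hN'.le
    rw [lt_abs]
    right
    linarith

theorem w10_cP_US (hc : W10c N r σ) {P : Set ℤ} {w' h' : ℝ} (hw : w' < r) (hh : σ < h') (p : Pc N)
    {ζ : ℂ} (hζ : ζ ∈ cP N P ∅ r σ p) : ζ ∈ US N P ∅ w' h' := by
  rcases p with l | l
  · obtain ⟨_, h1, h2, h3⟩ := hζ
    refine ⟨by rw [h1]; exact hh, fun m _ => ?_, fun m hm => absurd hm (Set.notMem_empty _)⟩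
    refine w10_near hc.N0 hw (l := ((l : ℕ) : ℤ)) ?_ ?_ m
    · push_cast; exact h2
    · push_cast; exact h3
  · rcases hζ with (⟨h0, h1, h2⟩ | ⟨h0, _, h1, h2⟩) | ⟨h0, _, h1, h2⟩
    · refine ⟨by rw [h1]; exact hh, fun m hm => ?_, fun m hm => absurd hm (Set.notMem_empty _)⟩
      refine w10_far hc.N0 hw hc.r1 (l := ((l : ℕ) : ℤ)) (by push_cast; exact h2) ?_
      rintro rfl
      exact h0 hm
    · have h3 : |ζ.re - (((l : ℕ) : ℤ) : ℝ) / N| = r := by
        rw [h2]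
        push_cast
        rw [sub_right_comm, sub_self, zero_sub, abs_neg, abs_of_pos hc.r0]
      refine ⟨h1.trans_lt hh, fun m _ => ?_, fun m hm => absurd hm (Set.notMem_empty _)⟩
      by_cases hm : m = ((l : ℕ) : ℤ)
      · rw [hm, h3]
        exact hw
      · exact w10_far hc.N0 hw hc.r1 h3.le hm
    · have h3 : |ζ.re - (((l : ℕ) : ℤ) : ℝ) / N| = r := by
        rw [h2]
        push_cast
        rw [add_sub_cancel_left, abs_of_pos hc.r0]
      refine ⟨h1.trans_lt hh, fun m _ => ?_, fun m hm => absurd hm (Set.notMem_empty _)⟩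
      by_cases hm : m = ((l : ℕ) : ℤ)
      · rw [hm, h3]
        exact hw
      · exact w10_far hc.N0 hw hc.r1 h3.le hm

theorem w10_cP_im (hc : W10c N r σ) {P : Set ℤ} (p : Pc N) {ζ : ℂ} (hζ : ζ ∈ cP N P ∅ r σ p) :
    |ζ.im| ≤ σ := by
  rcases p with l | l
  · exact hζ.2.1.le
  · rcases hζ with (⟨h0, h1, h2⟩ | ⟨h0, _, h1, h2⟩) | ⟨h0, _, h1, h2⟩
    · exact h1.le
    · exact h1
    · exact h1

theorem w10_sin {u : ℂ} (hu : u.im ≠ 0) : Complex.sin (π * u) ≠ 0 := by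
  intro h
  rw [Complex.sin_eq_zero_iff] at h
  obtain ⟨k, hk⟩ := h
  apply hu
  have hpi : (π : ℂ) ≠ 0 := Complex.ofReal_ne_zero.2 Real.pi_ne_zero
  have h1 : u = (k : ℂ) := by
    have h2 : (π : ℂ) * u = π * k := by rw [hk]; ring
    exact mul_left_cancel₀ hpi h2
  rw [h1]
  simp

theorem w10_kap (u : ℂ) : kap u = Complex.cos (π * u) / Complex.sin (π * u) / (2 * Complex.I) := by
  unfold kap
  rw [Complex.cot_eq_cos_div_sin]

theorem w10_snkap (z u : ℂ) : sn (z - u) * kap (u - z)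
    = Complex.sin (π * (u - z)) * Complex.cos (π * (u - z)) / (2 * Complex.I) := by
  rw [w10_kap]
  unfold sn
  have h1 : (π : ℂ) * (z - u) = -(π * (u - z)) := by ring
  rw [h1, Complex.sin_neg]
  by_cases h : Complex.sin (π * (u - z)) = 0
  · rw [h]
    simp
  · field_simp

open Classical in
/-- the factor of the kernel -/
def w10f (k : Fin N) (p : Pc N) (z u : ℂ) : ℂ :=
  if p = Sum.inr k then Complex.sin (π * (u - z)) * Complex.cos (π * (u - z)) / (2 * Complex.I)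
  else kap (u - z)

theorem w10_prod {q : ℕ} (k : Fin N) (τ : Fin q → Pc N) (z ζ : Fin q → ℂ) :
    Pw k τ z ζ * ∏ j, kap (ζ j - z j) = ∏ j, w10f k (τ j) (z j) (ζ j) := by
  classical
  unfold Pw w10f
  rw [← Finset.prod_mul_distrib]
  refine Finset.prod_congr rfl (fun j _ => ?_)
  by_cases h : τ j = Sum.inr k
  · simp only [h, if_true]
    exact w10_snkap _ _
  · simp only [h, if_false, one_mul]

theorem w10f_cont (k : Fin N) (hc : W10c N r σ) {h : ℝ} (hh : h < σ) (p : Pc N) {z : ℂ}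
    (hz : |z.im| < h) :
    ContinuousOn (fun u => w10f k p z u) (cP N (pcl N {((k : ℕ) : ℤ)}) ∅ r σ p) := by
  classical
  unfold w10f
  by_cases hp : p = Sum.inr k
  · simp only [hp, if_true]
    exact Continuous.continuousOn (by fun_prop)
  · simp only [hp, if_false]
    have e : (fun u => kap (u - z)) = fun u => Complex.cos (π * (u - z)) /
        Complex.sin (π * (u - z)) / (2 * Complex.I) := by
      funext u
      exact w10_kap _
    rw [e]
    refine ContinuousOn.div_const (ContinuousOn.div (Continuous.continuousOn (by fun_prop))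
      (Continuous.continuousOn (by fun_prop)) ?_) _
    intro u hu
    apply w10_sin
    have him : |u.im| = σ := by
      rcases p with l | l
      · exact hu.2.1
      · have hl : l ≠ k := fun h' => hp (by rw [h'])
        have hl2 := w10_notmem hl
        rcases hu with (⟨h0, h1, h2⟩ | ⟨h0, _, h1, h2⟩) | ⟨h0, _, h1, h2⟩
        · exact h1
        · exact absurd h0 hl2
        · exact absurd h0 hl2
    intro h0
    rw [Complex.sub_im, sub_eq_zero] at h0
    rw [h0] at him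
    linarith

theorem w10_Sw_cont {q M : ℕ} (τ : Fin q → Pc N) (z : Fin q → ℂ) :
    Continuous (fun ζ => Sw M τ z ζ) := by
  classical
  unfold Sw Pw sn
  refine continuous_finsetSum _ (fun l _ => ?_)
  by_cases h : (l : ℕ) < M
  · simp only [h, if_true]
    refine continuous_finsetProd _ (fun j _ => ?_)
    by_cases h2 : τ j = Sum.inr l
    · simp only [h2, if_true]
      fun_prop
    · simp only [h2, if_false]
      exact continuous_const
  · simp only [h, if_false]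
    exact continuous_const

theorem w10_free {q : ℕ} (hq : q < N) (τ : Fin q → Pc N) : ∃ i : Fin N, ∀ j, τ j ≠ Sum.inr i := by
  by_contra hcon
  push Not at hcon
  choose f hf using hcon
  have hinj : Function.Injective f := by
    intro a b hab
    have h1 := hf a
    rw [hab, hf b] at h1
    exact (Sum.inr.inj h1).symm
  have := Fintype.card_le_of_injective f hinj
  simp only [Fintype.card_fin] at this
  omega

theorem w10_cont (hc : W10c N r σ) {q : ℕ} (k : Fin N) {w' h h' ρ : ℝ} (hw : w' < r) (hh : h < σ)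
    (hh' : σ < h') (hρ : 0 < ρ) (τ : Fin q → Pc N) {z : Fin q → ℂ} (hz : ∀ j, |(z j).im| < h)
    (hS : ∀ ζ ∈ w10S N (pcl N {((k : ℕ) : ℤ)}) ∅ r σ τ, ρ ≤ (Sw N τ z ζ).re)
    {F : (Fin q → ℂ) → ℂ} (hF : BO q (US N (pcl N {((k : ℕ) : ℤ)}) ∅ w' h') F) :
    ContinuousOn (fun ζ => F ζ * (Pw k τ z ζ / Sw N τ z ζ) * ∏ j, kap (ζ j - z j))
      (w10S N (pcl N {((k : ℕ) : ℤ)}) ∅ r σ τ) := by
  have e : (fun ζ => F ζ * (Pw k τ z ζ / Sw N τ z ζ) * ∏ j, kap (ζ j - z j))
      = fun ζ => F ζ * ((∏ j, w10f k (τ j) (z j) (ζ j)) / Sw N τ z ζ) := by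
    funext ζ
    rw [← w10_prod]
    ring
  rw [e]
  have h1 : w10S N (pcl N {((k : ℕ) : ℤ)}) ∅ r σ τ ⊆ PU q (US N (pcl N {((k : ℕ) : ℤ)}) ∅ w' h') :=
    fun ζ hζ j => w10_cP_US hc hw hh' (τ j) (hζ j)
  refine (hF.hol.continuousOn.mono h1).mul (ContinuousOn.div ?_ (w10_Sw_cont τ z).continuousOn ?_)
  · refine continuousOn_finsetProd _ (fun j _ => ?_)
    exact (w10f_cont k hc hh (τ j) (hz j)).comp (continuous_apply j).continuousOn (fun ζ hζ => hζ j)
  · intro ζ hζ h0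
    have := hS ζ hζ
    rw [h0, Complex.zero_re] at this
    linarith

theorem w10_eop_smul {P G : Set ℤ} {M : ℕ} {k : Fin N} {q : ℕ} (c : ℂ) (F : (Fin q → ℂ) → ℂ)
    (z : Fin q → ℂ) : eop N P G r σ M k q (fun y => c * F y) z = c * eop N P G r σ M k q F z := by
  unfold eop
  rw [Finset.mul_sum]
  refine Finset.sum_congr rfl (fun τ _ => ?_)
  rw [← w10_itI_smul]
  congr 1
  funext ζ
  ring

theorem st_W10 (h3 : ST_W3) (h5 : ST_W5) (h6 : ST_W6) (h7 : ST_W7) : ST_W10 := by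
  intro N q hq
  have hN : 0 < N := by omega
  have hD : Dist N N ∅ ∅ := ⟨hN, le_rfl, Shape.empty N, fun i _ => Set.notMem_empty _⟩
  obtain ⟨c0, ρ, C0, hc0, hρ, H3⟩ := h3 N q 1 hN one_pos
  have L5 := Loss.w10_all (N := N) (fun k : Fin N => h5 N N q ∅ ∅ ∅ k hD k.2
    (fun i hi => absurd hi (Set.notMem_empty _)) (Or.inr hq))
  have L6 := h6 N N q ∅ ∅ ∅ hD (fun i hi => absurd hi (Set.notMem_empty _)) (Or.inr hq)
  have L7 := Loss.w10_all (N := N) (fun k : Fin N => h7 N N q ∅ ∅ ∅ k k hD k.2 k.2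
    (fun i hi => absurd hi (Set.notMem_empty _)))
  have L := ((L5.and L6).and L7).and (Loss.w10_h (N := N) hc0)
  refine L.imp ?_
  rintro w' h' w h hw0 hww hw4 hh0 hhh ⟨⟨⟨H5, H6⟩, H7⟩, Hh⟩ α hα
  simp only [Set.empty_union, pcl_empty] at H5 H6 H7
  have hc : W10c N ((w' + w) / 2) ((h' + h) / 2) := ⟨hN, by linarith, by linarith, by linarith⟩
  have hadd : ∀ (k : Fin N) (F K : (Fin q → ℂ) → ℂ),
      BO q (US N (pcl N {((k : ℕ) : ℤ)}) ∅ w' h') F → BO q (US N (pcl N {((k : ℕ) : ℤ)}) ∅ w' h') K →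
      ∀ z ∈ PU q (US N ∅ ∅ w h),
        eop N (pcl N {((k : ℕ) : ℤ)}) ∅ ((w' + w) / 2) ((h' + h) / 2) N k q (fun y => F y + K y) z
        = eop N (pcl N {((k : ℕ) : ℤ)}) ∅ ((w' + w) / 2) ((h' + h) / 2) N k q F z
        + eop N (pcl N {((k : ℕ) : ℤ)}) ∅ ((w' + w) / 2) ((h' + h) / 2) N k q K z := by
    intro k F K hF hK z hz
    have hz1 : ∀ j, |(z j).im| < h := fun j => (hz j).1
    unfold eop
    rw [← Finset.sum_add_distrib]
    refine Finset.sum_congr rfl (fun τ _ => ?_)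
    have hS : ∀ ζ ∈ w10S N (pcl N {((k : ℕ) : ℤ)}) ∅ ((w' + w) / 2) ((h' + h) / 2) τ,
        ρ ≤ (Sw N τ z ζ).re := by
      intro ζ hζ
      obtain ⟨i, hi⟩ := w10_free hq τ
      exact (H3 N τ z ζ (fun j => by linarith [hz1 j])
        (fun j => by linarith [w10_cP_im hc (τ j) (hζ j)])
        ⟨i, i.2, fun j hj => absurd hj (hi j)⟩).1
    have c1 := w10_cont hc k (w' := w') (h := h) (h' := h') (by linarith) (by linarith) (by linarith)
      hρ τ hz1 hS hF
    have c2 := w10_cont hc k (w' := w') (h := h) (h' := h') (by linarith) (by linarith) (by linarith)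
      hρ τ hz1 hS hK
    rw [← w10_itI_add hc q τ c1 c2]
    congr 1
    funext ζ
    ring
  refine ⟨fun i F => if hi : i < N then
    α (eop N (pcl N {(i : ℤ)}) ∅ ((w' + w) / 2) ((h' + h) / 2) N ⟨i, hi⟩ q F) else 0, ?_, ?_⟩
  · intro i hi
    rw [Set.empty_union]
    obtain ⟨B1, C, B2⟩ := H5 ⟨i, hi⟩
    obtain ⟨Ca, hCa, Ha⟩ := hα.bdd
    have ea : ∀ F : (Fin q → ℂ) → ℂ, (if hi : i < N then
        α (eop N (pcl N {(i : ℤ)}) ∅ ((w' + w) / 2) ((h' + h) / 2) N ⟨i, hi⟩ q F) else 0)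
        = α (eop N (pcl N {(i : ℤ)}) ∅ ((w' + w) / 2) ((h' + h) / 2) N ⟨i, hi⟩ q F) :=
      fun F => dif_pos hi
    refine ⟨fun F K hF hK => ?_, fun c F hF => ?_, ?_⟩
    · simp only [ea]
      rw [← hα.add _ _ (B1 F hF) (B1 K hK)]
      exact hα.ext' (B1 _ (hF.add hK)) ((B1 F hF).add (B1 K hK)) (hadd ⟨i, hi⟩ F K hF hK)
    · simp only [ea]
      rw [← hα.smul c _ (B1 F hF)]
      exact hα.ext' (B1 _ (hF.smul c)) ((B1 F hF).smul c) (fun z _ => w10_eop_smul c F z)
    · refine ⟨Ca * |C|, by positivity, fun F hF M hM hM0 => ?_⟩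
      simp only [ea]
      have h1 := Ha _ (B1 F hF) (|C| * M) (fun z hz => (B2 F hF M hM z hz).trans
        (mul_le_mul_of_nonneg_right (le_abs_self C) hM0)) (by positivity)
      rw [mul_assoc]
      exact h1
  · intro w1 h1 hw1 hw1' hh1 F hF
    have hF' : BO q (US N ∅ ∅ w' h') F := hF.mono (US_mono le_rfl le_rfl hw1'.le hh1.le)
    have hF'' : ∀ k : Fin N, BO q (US N (pcl N {((k : ℕ) : ℤ)}) ∅ w' h') F := fun k =>
      hF'.mono (US_mono (Set.empty_subset _) le_rfl le_rfl le_rfl)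
    have e1 : ∀ z ∈ PU q (US N ∅ ∅ w h), F z = ∑ k : Fin N,
        eop N (pcl N {((k : ℕ) : ℤ)}) ∅ ((w' + w) / 2) ((h' + h) / 2) N k q F z := by
      intro z hz
      rw [← H6 F hF' z hz]
      refine Finset.sum_congr rfl (fun k _ => ?_)
      rw [if_pos k.2]
      exact (H7 k F hF').1 trivial (Or.inr hq) z hz
    have e2 : α F = α (fun z => ∑ k : Fin N,
        eop N (pcl N {((k : ℕ) : ℤ)}) ∅ ((w' + w) / 2) ((h' + h) / 2) N k q F z) := by
      refine hα.ext' ?_ (BO.sum _ _ (fun k _ => (H5 k).1 F (hF'' k))) e1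
      exact hF.mono (US_mono le_rfl le_rfl (by linarith) (by linarith))
    rw [e2, hα.sum' Finset.univ (fun k : Fin N =>
      eop N (pcl N {((k : ℕ) : ℤ)}) ∅ ((w' + w) / 2) ((h' + h) / 2) N k q F)
      (fun k _ => (H5 k).1 F (hF'' k))]
    rw [Finset.sum_range]
    refine Finset.sum_congr rfl (fun k _ => ?_)
    simp only [dif_pos k.2]

end

end Pool.Agent.Helper67.DO
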