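import Pool.Agent.Helper67.DO.BaseE

set_option autoImplicit false

namespace Pool.Agent.Helper67.DO

open scoped BigOperators Real

noncomputable section

theorem w10_par {X : Type} [TopologicalSpace X] [FirstCountableTopology X] {s : Set X} {C : Set ℂ}
    {g : X × ℂ → ℂ} (hg : ContinuousOn g (s ×ˢ C)) {a b : ℝ} (hab : a ≤ b) {γ : ℝ → ℂ}
    (hγ : Continuous γ) (hC : ∀ t ∈ Set.Icc a b, γ t ∈ C) :
    ContinuousOn (fun x => ∫ t in a..b, g (x, γ t)) s := by
  rw [continuousOn_iff_continuous_domRestrict]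
  have e : s.domRestrict (fun x => ∫ t in a..b, g (x, γ t))
      = fun x : s => ∫ t in a..b, g ((x : X), γ (Set.projIcc a b hab t)) := by
    funext x
    refine intervalIntegral.integral_congr (fun t ht => ?_)
    rw [Set.uIcc_of_le hab] at ht
    rw [Set.projIcc_of_mem hab ht]
  rw [e]
  refine intervalIntegral.continuous_parametric_intervalIntegral_of_continuous'
    (f := fun (x : s) (t : ℝ) => g ((x : X), γ (Set.projIcc a b hab t))) ?_ a b
  refine hg.comp_continuous (f := fun y : s × ℝ => ((y.1 : X), γ (Set.projIcc a b hab y.2)))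
    (Continuous.prodMk (continuous_subtype_val.comp continuous_fst)
      (hγ.comp (continuous_subtype_val.comp (continuous_projIcc.comp continuous_snd)))) ?_
  intro y
  exact ⟨y.1.2, hC _ (Set.projIcc a b hab y.2).2⟩

theorem w10_ii {C : Set ℂ} {f : ℂ → ℂ} (hf : ContinuousOn f C) {a b : ℝ} (hab : a ≤ b) {γ : ℝ → ℂ}
    (hγ : Continuous γ) (hC : ∀ t ∈ Set.Icc a b, γ t ∈ C) :
    IntervalIntegrable (fun t => f (γ t)) MeasureTheory.volume a b := by
  apply ContinuousOn.intervalIntegrable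
  rw [Set.uIcc_of_le hab]
  exact hf.comp hγ.continuousOn hC

variable {N : ℕ} {P G : Set ℤ} {r σ : ℝ}

/-- numerical conditions on the contours -/
structure W10c (N : ℕ) (r σ : ℝ) : Prop where
  N0 : 0 < N
  r0 : 0 < r
  r1 : r < 1 / (4 * N)
  s0 : 0 < σ

theorem W10c.gap (h : W10c N r σ) (l : ℝ) : l / N + r ≤ (l + 1) / N - r := by
  have h1 := h.r1
  have hN : (0 : ℝ) < N := Nat.cast_pos.2 h.N0
  have h2 : (l + 1) / N = l / N + 4 * (1 / (4 * (N : ℝ))) := by
    field_simp
  rw [h2]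
  have h3 : 0 < 1 / (4 * (N : ℝ)) := by positivity
  linarith

theorem w10_g1 (σ : ℝ) : Continuous fun x : ℝ => (x : ℂ) - σ * Complex.I := by fun_prop
theorem w10_g2 (σ : ℝ) : Continuous fun x : ℝ => (x : ℂ) + σ * Complex.I := by fun_prop
theorem w10_g3 (c : ℝ) : Continuous fun y : ℝ => ((c : ℝ) : ℂ) + y * Complex.I := by fun_prop

theorem w10_m1 (hc : W10c N r σ) (l : Fin N) (hG : ((l : ℕ) : ℤ) ∉ G) (t : ℝ)
    (ht : t ∈ Set.Icc ((((l : ℕ) : ℤ) : ℝ) / N + r) (((((l : ℕ) : ℤ) : ℝ) + 1) / N - r)) :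
    ((t : ℂ) - σ * Complex.I) ∈ cP N P G r σ (Sum.inl l) ∧
    ((t : ℂ) + σ * Complex.I) ∈ cP N P G r σ (Sum.inl l) := by
  have hs := hc.s0
  have ht1 := ht.1
  have ht2 := ht.2
  push_cast at ht1 ht2
  constructor
  · refine ⟨hG, ?_, ?_, ?_⟩
    · simp [abs_of_pos hs]
    · simpa using ht1
    · simpa using ht2
  · refine ⟨hG, ?_, ?_, ?_⟩
    · simp [abs_of_pos hs]
    · simpa using ht1
    · simpa using ht2

theorem w10_m2 (hc : W10c N r σ) (l : Fin N) (hP : ((l : ℕ) : ℤ) ∉ P) (t : ℝ)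
    (ht : t ∈ Set.Icc ((((l : ℕ) : ℤ) : ℝ) / N - r) ((((l : ℕ) : ℤ) : ℝ) / N + r)) :
    ((t : ℂ) - σ * Complex.I) ∈ cP N P G r σ (Sum.inr l) ∧
    ((t : ℂ) + σ * Complex.I) ∈ cP N P G r σ (Sum.inr l) := by
  have hs := hc.s0
  have ht1 := ht.1
  have ht2 := ht.2
  push_cast at ht1 ht2
  constructor
  · refine Or.inl (Or.inl ⟨hP, ?_, ?_⟩)
    · simp [abs_of_pos hs]
    · rw [abs_le]
      simp only [Complex.sub_re, Complex.ofReal_re, Complex.mul_re, Complex.I_re, mul_zero,
        Complex.ofReal_im, Complex.I_im, mul_one, sub_self, sub_zero]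
      constructor <;> linarith
  · refine Or.inl (Or.inl ⟨hP, ?_, ?_⟩)
    · simp [abs_of_pos hs]
    · rw [abs_le]
      simp only [Complex.add_re, Complex.ofReal_re, Complex.mul_re, Complex.I_re, mul_zero,
        Complex.ofReal_im, Complex.I_im, mul_one, sub_self, add_zero]
      constructor <;> linarith

theorem w10_m3 (l : Fin N) (hP : ((l : ℕ) : ℤ) ∈ P) (hG : ((l : ℕ) : ℤ) - 1 ∉ G) (t : ℝ)
    (ht : t ∈ Set.Icc (-σ) σ) :
    ((((((l : ℕ) : ℤ) : ℝ) / N - r : ℝ) : ℂ) + t * Complex.I) ∈ cP N P G r σ (Sum.inr l) := by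
  refine Or.inl (Or.inr ⟨hP, hG, ?_, ?_⟩)
  · rw [abs_le]
    simpa using ht
  · simp

theorem w10_m4 (l : Fin N) (hP : ((l : ℕ) : ℤ) ∈ P) (hG : ((l : ℕ) : ℤ) ∉ G) (t : ℝ)
    (ht : t ∈ Set.Icc (-σ) σ) :
    ((((((l : ℕ) : ℤ) : ℝ) / N + r : ℝ) : ℂ) + t * Complex.I) ∈ cP N P G r σ (Sum.inr l) := by
  refine Or.inr ⟨hP, hG, ?_, ?_⟩
  · rw [abs_le]
    simpa using ht
  · simp

theorem w10_pI_par (hc : W10c N r σ) (p : Pc N) {X : Type} [TopologicalSpace X]
    [FirstCountableTopology X] {s : Set X} {g : X × ℂ → ℂ}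
    (hg : ContinuousOn g (s ×ˢ cP N P G r σ p)) :
    ContinuousOn (fun x => pI N P G r σ p (fun ζ => g (x, ζ))) s := by
  classical
  have hs2 : -σ ≤ σ := by have := hc.s0; linarith
  rcases p with l | l
  · by_cases hG : ((l : ℕ) : ℤ) ∈ G
    · simp only [pI, hG, if_true]
      exact continuousOn_const
    · simp only [pI, hG, if_false, gapI]
      have hab := hc.gap ((((l : ℕ) : ℤ) : ℝ))
      have h1 := w10_par (s := s) hg hab (w10_g1 σ) (fun t ht => (w10_m1 hc l hG t ht).1)
      have h2 := w10_par (s := s) hg hab (w10_g2 σ) (fun t ht => (w10_m1 hc l hG t ht).2)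
      refine (h1.sub h2).congr (fun x hx => ?_)
      have hx' : ContinuousOn (fun ζ => g (x, ζ)) (cP N P G r σ (Sum.inl l)) :=
        hg.comp (Continuous.continuousOn (by fun_prop)) (fun ζ hζ => ⟨hx, hζ⟩)
      exact intervalIntegral.integral_sub
        (w10_ii hx' hab (w10_g1 σ) (fun t ht => (w10_m1 hc l hG t ht).1))
        (w10_ii hx' hab (w10_g2 σ) (fun t ht => (w10_m1 hc l hG t ht).2))
  · by_cases hP : ((l : ℕ) : ℤ) ∈ P
    · simp only [pI, hP, if_true]
      refine ContinuousOn.sub ?_ ?_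
      · by_cases hG : ((l : ℕ) : ℤ) - 1 ∈ G
        · simp only [hG, if_true]
          exact continuousOn_const
        · simp only [hG, if_false, verL]
          exact continuousOn_const.mul
            (w10_par (s := s) hg hs2 (w10_g3 _) (fun t ht => w10_m3 l hP hG t ht))
      · by_cases hG : ((l : ℕ) : ℤ) ∈ G
        · simp only [hG, if_true]
          exact continuousOn_const
        · simp only [hG, if_false, verR]
          exact continuousOn_const.mul
            (w10_par (s := s) hg hs2 (w10_g3 _) (fun t ht => w10_m4 l hP hG t ht))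
    · simp only [pI, hP, if_false, capI]
      have hab : (((l : ℕ) : ℤ) : ℝ) / N - r ≤ (((l : ℕ) : ℤ) : ℝ) / N + r := by
        have := hc.r0; linarith
      have h1 := w10_par (s := s) hg hab (w10_g1 σ) (fun t ht => (w10_m2 hc l hP t ht).1)
      have h2 := w10_par (s := s) hg hab (w10_g2 σ) (fun t ht => (w10_m2 hc l hP t ht).2)
      refine (h1.sub h2).congr (fun x hx => ?_)
      have hx' : ContinuousOn (fun ζ => g (x, ζ)) (cP N P G r σ (Sum.inr l)) :=
        hg.comp (Continuous.continuousOn (by fun_prop)) (fun ζ hζ => ⟨hx, hζ⟩)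
      exact intervalIntegral.integral_sub
        (w10_ii hx' hab (w10_g1 σ) (fun t ht => (w10_m2 hc l hP t ht).1))
        (w10_ii hx' hab (w10_g2 σ) (fun t ht => (w10_m2 hc l hP t ht).2))

theorem w10_pI_congr (hc : W10c N r σ) (p : Pc N) {f g : ℂ → ℂ}
    (h : ∀ ζ ∈ cP N P G r σ p, f ζ = g ζ) : pI N P G r σ p f = pI N P G r σ p g := by
  classical
  have hs2 : -σ ≤ σ := by have := hc.s0; linarith
  rcases p with l | l
  · by_cases hG : ((l : ℕ) : ℤ) ∈ G
    · simp only [pI, hG, if_true]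
    · simp only [pI, hG, if_false, gapI]
      have hab := hc.gap ((((l : ℕ) : ℤ) : ℝ))
      refine intervalIntegral.integral_congr (fun t ht => ?_)
      rw [Set.uIcc_of_le hab] at ht
      have h1 := h _ (w10_m1 hc l hG t ht).1
      have h2 := h _ (w10_m1 hc l hG t ht).2
      simp only [h1, h2]
  · by_cases hP : ((l : ℕ) : ℤ) ∈ P
    · simp only [pI, hP, if_true]
      congr 1
      · by_cases hG : ((l : ℕ) : ℤ) - 1 ∈ G
        · simp only [hG, if_true]
        · simp only [hG, if_false, verL]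
          congr 1
          refine intervalIntegral.integral_congr (fun t ht => ?_)
          rw [Set.uIcc_of_le hs2] at ht
          exact h _ (w10_m3 l hP hG t ht)
      · by_cases hG : ((l : ℕ) : ℤ) ∈ G
        · simp only [hG, if_true]
        · simp only [hG, if_false, verR]
          congr 1
          refine intervalIntegral.integral_congr (fun t ht => ?_)
          rw [Set.uIcc_of_le hs2] at ht
          exact h _ (w10_m4 l hP hG t ht)
    · simp only [pI, hP, if_false, capI]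
      have hab : (((l : ℕ) : ℤ) : ℝ) / N - r ≤ (((l : ℕ) : ℤ) : ℝ) / N + r := by
        have := hc.r0; linarith
      refine intervalIntegral.integral_congr (fun t ht => ?_)
      rw [Set.uIcc_of_le hab] at ht
      have h1 := h _ (w10_m2 hc l hP t ht).1
      have h2 := h _ (w10_m2 hc l hP t ht).2
      simp only [h1, h2]

theorem w10_pI_add (hc : W10c N r σ) (p : Pc N) {f g : ℂ → ℂ}
    (hf : ContinuousOn f (cP N P G r σ p)) (hg : ContinuousOn g (cP N P G r σ p)) :
    pI N P G r σ p (fun ζ => f ζ + g ζ) = pI N P G r σ p f + pI N P G r σ p g := by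
  classical
  have hs2 : -σ ≤ σ := by have := hc.s0; linarith
  rcases p with l | l
  · by_cases hG : ((l : ℕ) : ℤ) ∈ G
    · simp only [pI, hG, if_true, add_zero]
    · simp only [pI, hG, if_false, gapI]
      have hab := hc.gap ((((l : ℕ) : ℤ) : ℝ))
      have i1 := w10_ii hf hab (w10_g1 σ) (fun t ht => (w10_m1 hc l hG t ht).1)
      have i2 := w10_ii hf hab (w10_g2 σ) (fun t ht => (w10_m1 hc l hG t ht).2)
      have i3 := w10_ii hg hab (w10_g1 σ) (fun t ht => (w10_m1 hc l hG t ht).1)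
      have i4 := w10_ii hg hab (w10_g2 σ) (fun t ht => (w10_m1 hc l hG t ht).2)
      rw [← intervalIntegral.integral_add (i1.sub i2) (i3.sub i4)]
      refine intervalIntegral.integral_congr (fun t _ => ?_)
      ring
  · by_cases hP : ((l : ℕ) : ℤ) ∈ P
    · simp only [pI, hP, if_true]
      have e1 : (if ((l : ℕ) : ℤ) - 1 ∈ G then (0 : ℂ) else verL N r σ ((l : ℕ) : ℤ) (fun ζ => f ζ + g ζ))
          = (if ((l : ℕ) : ℤ) - 1 ∈ G then (0 : ℂ) else verL N r σ ((l : ℕ) : ℤ) f)
          + (if ((l : ℕ) : ℤ) - 1 ∈ G then (0 : ℂ) else verL N r σ ((l : ℕ) : ℤ) g) := by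
        by_cases hG : ((l : ℕ) : ℤ) - 1 ∈ G
        · simp only [hG, if_true, add_zero]
        · simp only [hG, if_false, verL]
          rw [← mul_add, ← intervalIntegral.integral_add
            (w10_ii hf hs2 (w10_g3 _) (fun t ht => w10_m3 l hP hG t ht))
            (w10_ii hg hs2 (w10_g3 _) (fun t ht => w10_m3 l hP hG t ht))]
      have e2 : (if ((l : ℕ) : ℤ) ∈ G then (0 : ℂ) else verR N r σ ((l : ℕ) : ℤ) (fun ζ => f ζ + g ζ))
          = (if ((l : ℕ) : ℤ) ∈ G then (0 : ℂ) else verR N r σ ((l : ℕ) : ℤ) f)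
          + (if ((l : ℕ) : ℤ) ∈ G then (0 : ℂ) else verR N r σ ((l : ℕ) : ℤ) g) := by
        by_cases hG : ((l : ℕ) : ℤ) ∈ G
        · simp only [hG, if_true, add_zero]
        · simp only [hG, if_false, verR]
          rw [← mul_add, ← intervalIntegral.integral_add
            (w10_ii hf hs2 (w10_g3 _) (fun t ht => w10_m4 l hP hG t ht))
            (w10_ii hg hs2 (w10_g3 _) (fun t ht => w10_m4 l hP hG t ht))]
      rw [e1, e2]
      ring
    · simp only [pI, hP, if_false, capI]
      have hab : (((l : ℕ) : ℤ) : ℝ) / N - r ≤ (((l : ℕ) : ℤ) : ℝ) / N + r := by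
        have := hc.r0; linarith
      have i1 := w10_ii hf hab (w10_g1 σ) (fun t ht => (w10_m2 hc l hP t ht).1)
      have i2 := w10_ii hf hab (w10_g2 σ) (fun t ht => (w10_m2 hc l hP t ht).2)
      have i3 := w10_ii hg hab (w10_g1 σ) (fun t ht => (w10_m2 hc l hP t ht).1)
      have i4 := w10_ii hg hab (w10_g2 σ) (fun t ht => (w10_m2 hc l hP t ht).2)
      rw [← intervalIntegral.integral_add (i1.sub i2) (i3.sub i4)]
      refine intervalIntegral.integral_congr (fun t _ => ?_)
      ring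

theorem w10_pI_smul (p : Pc N) (c : ℂ) (f : ℂ → ℂ) :
    pI N P G r σ p (fun ζ => c * f ζ) = c * pI N P G r σ p f := by
  classical
  have e : ∀ a b : ℝ, ∀ g : ℝ → ℂ, ∫ t in a..b, c * g t = c * ∫ t in a..b, g t :=
    fun a b g => intervalIntegral.integral_const_mul c g
  rcases p with l | l
  · by_cases hG : ((l : ℕ) : ℤ) ∈ G
    · simp only [pI, hG, if_true, mul_zero]
    · simp only [pI, hG, if_false, gapI]
      rw [← e]
      refine intervalIntegral.integral_congr (fun t _ => ?_)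
      ring
  · by_cases hP : ((l : ℕ) : ℤ) ∈ P
    · simp only [pI, hP, if_true]
      rw [mul_sub]
      congr 1
      · by_cases hG : ((l : ℕ) : ℤ) - 1 ∈ G
        · simp only [hG, if_true, mul_zero]
        · simp only [hG, if_false, verL]
          rw [e]
          ring
      · by_cases hG : ((l : ℕ) : ℤ) ∈ G
        · simp only [hG, if_true, mul_zero]
        · simp only [hG, if_false, verR]
          rw [e]
          ring
    · simp only [pI, hP, if_false, capI]
      rw [← e]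
      refine intervalIntegral.integral_congr (fun t _ => ?_)
      ring

/-- product of contour sets -/
def w10S (N : ℕ) (P G : Set ℤ) (r σ : ℝ) {q : ℕ} (τ : Fin q → Pc N) : Set (Fin q → ℂ) :=
  {ζ | ∀ j, ζ j ∈ cP N P G r σ (τ j)}

theorem w10_cons {q : ℕ} {τ : Fin (q + 1) → Pc N} {ζ : ℂ} {v : Fin q → ℂ}
    (h1 : ζ ∈ cP N P G r σ (τ 0)) (h2 : v ∈ w10S N P G r σ (fun i => τ i.succ)) :
    (Fin.cons ζ v : Fin (q + 1) → ℂ) ∈ w10S N P G r σ τ := by
  intro j
  refine Fin.cases ?_ (fun i => ?_) j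
  · exact h1
  · exact h2 i

theorem w10_itI_par (hc : W10c N r σ) (q : ℕ) : ∀ (τ : Fin q → Pc N) {X : Type} [TopologicalSpace X]
    [FirstCountableTopology X] {s : Set X} {K : X → (Fin q → ℂ) → ℂ}
    (_ : ContinuousOn (fun x : X × (Fin q → ℂ) => K x.1 x.2) (s ×ˢ w10S N P G r σ τ)),
    ContinuousOn (fun x => itI N P G r σ q τ (K x)) s := by
  induction q with
  | zero =>
    intro τ X _ _ s K hK
    simp only [itI]
    refine hK.comp (f := fun x => (x, fun i : Fin 0 => i.elim0)) (Continuous.continuousOn (by fun_prop)) ?_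
    intro x hx
    exact ⟨hx, fun j => j.elim0⟩
  | succ q ih =>
    intro τ X _ _ s K hK
    simp only [itI]
    have h1 := ih (fun i => τ i.succ) (X := X × ℂ) (s := s ×ˢ cP N P G r σ (τ 0))
      (K := fun y v => K y.1 (Fin.cons y.2 v)) (by
        refine hK.comp (f := fun y : (X × ℂ) × (Fin q → ℂ) =>
          (y.1.1, (Fin.cons y.1.2 y.2 : Fin (q + 1) → ℂ))) ?_ ?_
        · refine Continuous.continuousOn ?_
          refine Continuous.prodMk (by fun_prop) ?_
          refine continuous_pi (fun j => ?_)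
          refine Fin.cases ?_ (fun i => ?_) j
          · simp only [Fin.cons_zero]
            fun_prop
          · simp only [Fin.cons_succ]
            fun_prop
        · rintro ⟨⟨x, ζ⟩, v⟩ ⟨⟨h1, h2⟩, h3⟩
          exact ⟨h1, w10_cons h2 h3⟩)
    exact w10_pI_par hc (τ 0) (g := fun y : X × ℂ =>
      itI N P G r σ q (fun i => τ i.succ) (fun v => K y.1 (Fin.cons y.2 v))) h1

theorem w10_slice {q : ℕ} {τ : Fin (q + 1) → Pc N} {F : (Fin (q + 1) → ℂ) → ℂ}
    (hF : ContinuousOn F (w10S N P G r σ τ)) {ζ : ℂ} (hζ : ζ ∈ cP N P G r σ (τ 0)) :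
    ContinuousOn (fun v : Fin q → ℂ => F (Fin.cons ζ v)) (w10S N P G r σ (fun i => τ i.succ)) := by
  refine hF.comp (Continuous.continuousOn ?_) (fun v hv => w10_cons hζ hv)
  refine continuous_pi (fun j => ?_)
  refine Fin.cases ?_ (fun i => ?_) j
  · simp only [Fin.cons_zero]
    fun_prop
  · simp only [Fin.cons_succ]
    fun_prop

theorem w10_inner (hc : W10c N r σ) {q : ℕ} {τ : Fin (q + 1) → Pc N} {F : (Fin (q + 1) → ℂ) → ℂ}
    (hF : ContinuousOn F (w10S N P G r σ τ)) :
    ContinuousOn (fun ζ => itI N P G r σ q (fun i => τ i.succ) (fun v => F (Fin.cons ζ v)))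
      (cP N P G r σ (τ 0)) := by
  refine w10_itI_par hc q (fun i => τ i.succ) (X := ℂ) (s := cP N P G r σ (τ 0))
    (K := fun ζ v => F (Fin.cons ζ v)) ?_
  refine hF.comp (f := fun y : ℂ × (Fin q → ℂ) => (Fin.cons y.1 y.2 : Fin (q + 1) → ℂ)) ?_ ?_
  · refine Continuous.continuousOn (continuous_pi (fun j => ?_))
    refine Fin.cases ?_ (fun i => ?_) j
    · simp only [Fin.cons_zero]
      fun_prop
    · simp only [Fin.cons_succ]
      fun_prop
  · rintro ⟨ζ, v⟩ ⟨h1, h2⟩
    exact w10_cons h1 h2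

theorem w10_itI_congr (hc : W10c N r σ) (q : ℕ) : ∀ (τ : Fin q → Pc N) {F H : (Fin q → ℂ) → ℂ},
    (∀ ζ ∈ w10S N P G r σ τ, F ζ = H ζ) → itI N P G r σ q τ F = itI N P G r σ q τ H := by
  induction q with
  | zero =>
    intro τ F H h
    simp only [itI]
    exact h _ (fun j => j.elim0)
  | succ q ih =>
    intro τ F H h
    simp only [itI]
    refine w10_pI_congr hc (τ 0) (fun ζ hζ => ?_)
    exact ih _ (fun v hv => h _ (w10_cons hζ hv))

theorem w10_itI_add (hc : W10c N r σ) (q : ℕ) : ∀ (τ : Fin q → Pc N) {F H : (Fin q → ℂ) → ℂ},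
    ContinuousOn F (w10S N P G r σ τ) → ContinuousOn H (w10S N P G r σ τ) →
    itI N P G r σ q τ (fun ζ => F ζ + H ζ) = itI N P G r σ q τ F + itI N P G r σ q τ H := by
  induction q with
  | zero =>
    intro τ F H _ _
    simp only [itI]
  | succ q ih =>
    intro τ F H hF hH
    simp only [itI]
    rw [← w10_pI_add hc (τ 0) (w10_inner hc hF) (w10_inner hc hH)]
    refine w10_pI_congr hc (τ 0) (fun ζ hζ => ?_)
    exact ih _ (w10_slice hF hζ) (w10_slice hH hζ)

theorem w10_itI_smul (q : ℕ) : ∀ (τ : Fin q → Pc N) (c : ℂ) (F : (Fin q → ℂ) → ℂ),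
    itI N P G r σ q τ (fun ζ => c * F ζ) = c * itI N P G r σ q τ F := by
  induction q with
  | zero =>
    intro τ c F
    simp only [itI]
  | succ q ih =>
    intro τ c F
    simp only [itI]
    rw [← w10_pI_smul]
    congr 1
    funext ζ
    exact ih _ c _

end

end Pool.Agent.Helper67.DO
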